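import Pool.Agent.N309.PD.Euler

/-!
# Connected positive cones: all `L²`-Betti numbers vanish if and only if `χ = 0`

Let `G` be a Poincaré duality group of dimension `n ≤ 4` with a left order, generated by positive
elements `s_1, …, s_d`. If the positive cone is connected in the Cayley graph, or at least if the
generators lie in one of its components, or if `d ≤ 2`, then all `L²`-Betti numbers of `G` vanish if
and only if the Euler characteristic is zero; for `n = 4` the second `L²`-Betti number is the Euler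
characteristic, and without the assumption on the positive cone it differs from it by at most
`2 (c - 1)`, where `c` is the number of components which contain generators.

Outline. The first `L²`-Betti number is at most `c - 1` (`N309.PD.ker_one_cone`), by duality the same
holds in degree `n - 1`, and the Euler-Poincaré formula holds for von Neumann dimensions.
-/

set_option autoImplicit false

open scoped Matrix

universe u

namespace Pool.Agent.Results.MP_394d50_gt.ConnectedConesIff

/-- The total order of `G` is left-invariant. -/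
def LeftInvariant (G : Type u) [Group G] [LinearOrder G] : Prop :=
  ∀ g a b : G, a ≤ b → g * a ≤ g * b

/-- `g` and `h` can be joined by a path in the Cayley graph of `G` with respect to the `s j` (edges
from `x` to `x s_j`) all whose vertices are in the positive cone `{x | 1 < x}`. -/
def JoinedInPositiveCone {G : Type u} [Group G] [LinearOrder G] {d : ℕ} (s : Fin d → G)
    (g h : G) : Prop :=
  Relation.ReflTransGen (fun x y : G => 1 < x ∧ 1 < y ∧ ∃ j, y = x * s j ∨ x = y * s j) g h

/-- The matrices of a complex of finitely generated free left modules over the complex group algebra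
of `G`: the module in degree `i` consists of the row vectors with `r i` entries, and the boundary
operator from degree `i + 1` to degree `i` is the right multiplication by the matrix `D i`. The dual
complex consists of the column vectors, with the left multiplication by `D i` from degree `i` to
degree `i + 1`. -/
abbrev Matrices (G : Type u) [Group G] (r : ℕ → ℕ) :=
  ∀ i, Matrix (Fin (r (i + 1))) (Fin (r i)) (MonoidAlgebra ℂ G)

/-- The complex is exact in degree `i + 1`. -/
def IsExactAt {G : Type u} [Group G] {r : ℕ → ℕ} (D : Matrices G r) (i : ℕ) : Prop :=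
  ∀ x : Fin (r (i + 1)) → MonoidAlgebra ℂ G, x ᵥ* D i = 0 → ∃ y, y ᵥ* D (i + 1) = x

/-- The dual complex is exact in degree `i + 1`. -/
def IsDualExactAt {G : Type u} [Group G] {r : ℕ → ℕ} (D : Matrices G r) (i : ℕ) : Prop :=
  ∀ x : Fin (r (i + 1)) → MonoidAlgebra ℂ G, D (i + 1) *ᵥ x = 0 → ∃ y, D i *ᵥ y = x

/-- The sum of the coefficients of an element of the group algebra. -/
noncomputable def aug {G : Type u} [Group G] (α : MonoidAlgebra ℂ G) : ℂ :=
  α.coeff.sum fun _ c => c

/-- The homology of the complex in degree `0` is the trivial module `ℂ`, by means of the functional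
which maps `x` to the sum of the `aug (x i) * a i`. -/
def HasAugmentation {G : Type u} [Group G] {r : ℕ → ℕ} (D : Matrices G r) : Prop :=
  ∃ a : Fin (r 0) → ℂ, a ≠ 0 ∧ ∀ x : Fin (r 0) → MonoidAlgebra ℂ G,
    (∃ y, y ᵥ* D 0 = x) ↔ ∑ i, aug (x i) * a i = 0

/-- The cokernel of `D i` in the dual complex has dimension one over `ℂ`. -/
def HasCoaugmentation {G : Type u} [Group G] {r : ℕ → ℕ} (D : Matrices G r) (i : ℕ) : Prop :=
  ∃ φ : (Fin (r (i + 1)) → MonoidAlgebra ℂ G) →ₗ[ℂ] ℂ, φ ≠ 0 ∧
    ∀ x, (∃ y, D i *ᵥ y = x) ↔ φ x = 0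

/-- A finite complex of finitely generated free left modules over the complex group algebra of `G`,
of length `n`, which is a resolution of the trivial module `ℂ` and whose dual complex is exact in the
degrees `1, …, n - 1` and has a one-dimensional cokernel in degree `n`. -/
structure IsDualityComplex {G : Type u} [Group G] (n : ℕ) {r : ℕ → ℕ} (D : Matrices G r) :
    Prop where
  comp : ∀ i, D (i + 1) * D i = 0
  length : ∀ i, n < i → r i = 0
  exact : ∀ i, IsExactAt D i
  augmentation : HasAugmentation D
  coexact : ∀ i, i + 1 < n → IsDualExactAt D i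
  coaugmentation : ∀ i, i + 1 = n → HasCoaugmentation D i

/-- The value at `g` of the convolution `α * f`. -/
noncomputable def conv {G : Type u} [Group G] (α : MonoidAlgebra ℂ G) (f : G → ℂ) (g : G) : ℂ :=
  ∑ k ∈ α.coeff.support, α.coeff k * f (k⁻¹ * g)

/-- The value at `g` of the convolution `α* * f` with the adjoint of `α`. -/
noncomputable def coconv {G : Type u} [Group G] (α : MonoidAlgebra ℂ G) (f : G → ℂ) (g : G) : ℂ :=
  ∑ k ∈ α.coeff.support, (starRingEnd ℂ) (α.coeff k) * f (k * g)

/-- The square-summable functions on `G × {1, …, k}`. -/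
noncomputable abbrev L2 (G : Type u) (k : ℕ) := lp (fun _ : G × Fin k => ℂ) 2

/-- `F` is mapped to zero by the coboundary operator, the matrix `A` acting by convolution. -/
def IsCocycle {G : Type u} [Group G] {k l : ℕ} (A : Matrix (Fin l) (Fin k) (MonoidAlgebra ℂ G))
    (F : L2 G k) : Prop :=
  ∀ i g, ∑ j, conv (A i j) (fun x => F (x, j)) g = 0

/-- `F` is mapped to zero by the boundary operator, the adjoint of the matrix `A`. -/
def IsCycle {G : Type u} [Group G] {k l : ℕ} (A : Matrix (Fin l) (Fin k) (MonoidAlgebra ℂ G))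
    (F : L2 G l) : Prop :=
  ∀ j g, ∑ i, coconv (A i j) (fun x => F (x, i)) g = 0

/-- The square-summable harmonic cochains in degree `i`: the square-summable functions on
`G × Fin (r i)` in the kernels of the coboundary operator (the matrix `D i`, acting by convolution)
and, if `i` is positive, of the boundary operator (the adjoint of the matrix `D (i - 1)`). They
represent the reduced `ℓ²`-cohomology. -/
noncomputable def harmonic {G : Type u} [Group G] {r : ℕ → ℕ} (D : Matrices G r) :
    (i : ℕ) → Set (L2 G (r i))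
  | 0 => {F | IsCocycle (D 0) F}
  | (i + 1) => {F | IsCocycle (D (i + 1)) F ∧ IsCycle (D i) F}

open Classical in
/-- The `i`-th `L²`-Betti number: the von Neumann dimension of the space of harmonic cochains, that
is, the sum over the basis of one minus the squared distance of the basis vector (at the identity of
`G`) to this space. -/
noncomputable def betti {G : Type u} [Group G] {r : ℕ → ℕ} (D : Matrices G r) (i : ℕ) : ℝ :=
  ∑ j : Fin (r i), (1 - Metric.infDist
    (lp.single 2 ((1 : G), j) (1 : ℂ) : L2 G (r i)) (harmonic D i) ^ 2)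

section proofs
open Pool.Agent.W649.ZL Pool.Agent.N309.LO Pool.Agent.N309.PD

variable {G : Type u} [Group G]

theorem opM_apply {a b : ℕ} (A : Matrix (Fin a) (Fin b) (MonoidAlgebra ℂ G)) (F : EE G (Fin b))
    (k : Fin a) (g : G) : opM A F (g, k) = ∑ j, conv (A k j) (fun x => F (x, j)) g := by
  rw [← cmp_apply, cmp_opM]
  unfold pr
  rw [sum_apply_EE]
  refine Finset.sum_congr rfl fun j _ => ?_
  rw [Lam_apply]
  unfold conv
  refine Finset.sum_congr rfl fun x _ => ?_
  rw [cmp_apply]

theorem Lam_sig_apply (α : MonoidAlgebra ℂ G) (f : EE G Unit) (g : G) :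
    Lam (sig α) f (g, ()) = coconv α (fun x => f (x, ())) g := by
  rw [Lam_apply]
  unfold coconv
  apply Finset.sum_nbij' (fun k => k⁻¹) (fun k => k⁻¹)
  · intro k hk
    rw [Finsupp.mem_support_iff] at hk ⊢
    rw [sig_coeff] at hk
    intro h
    exact hk (by rw [h, map_zero])
  · intro k hk
    rw [Finsupp.mem_support_iff] at hk ⊢
    rw [sig_coeff, inv_inv]
    intro h
    exact hk ((map_eq_zero _).1 h)
  · intro k _
    exact inv_inv k
  · intro k _
    exact inv_inv k
  · intro k _
    rw [sig_coeff]

theorem opM_adj_apply {a b : ℕ} (A : Matrix (Fin a) (Fin b) (MonoidAlgebra ℂ G))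
    (F : EE G (Fin a)) (j : Fin b) (g : G) :
    opM (adjM A) F (g, j) = ∑ k, coconv (A k j) (fun x => F (x, k)) g := by
  rw [← cmp_apply, cmp_opM]
  unfold pr
  rw [sum_apply_EE]
  refine Finset.sum_congr rfl fun k _ => ?_
  change Lam (sig (A k j)) (cmp k F) (g, ()) = _
  rw [Lam_sig_apply]
  congr 1
  funext x
  rw [cmp_apply]

theorem ker_iff {a b : ℕ} (A : Matrix (Fin a) (Fin b) (MonoidAlgebra ℂ G)) (F : EE G (Fin b)) :
    (∀ k g, ∑ j, conv (A k j) (fun x => F (x, j)) g = 0) ↔ opM A F = 0 := by
  constructor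
  · intro h
    ext ⟨g, k⟩
    rw [opM_apply, h]
    rfl
  · intro h k g
    rw [← opM_apply, h]
    rfl

theorem coker_iff {a b : ℕ} (A : Matrix (Fin a) (Fin b) (MonoidAlgebra ℂ G)) (F : EE G (Fin a)) :
    (∀ j g, ∑ k, coconv (A k j) (fun x => F (x, k)) g = 0) ↔ opM (adjM A) F = 0 := by
  constructor
  · intro h
    ext ⟨g, j⟩
    rw [opM_adj_apply, h]
    rfl
  · intro h j g
    rw [← opM_adj_apply, h]
    rfl

theorem harmonic_zero {r : ℕ → ℕ} (D : Matrices G r) :
    harmonic D 0 = (LinearMap.ker (opM (D 0) : EE G (Fin (r 0)) →ₗ[ℂ] EE G (Fin (r 1))) :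
      Set (EE G (Fin (r 0)))) := by
  ext F
  exact ker_iff (D 0) F

theorem harmonic_succ {r : ℕ → ℕ} (D : Matrices G r) (i : ℕ) :
    harmonic D (i + 1) = (harm (opM (D (i + 1))) (opM (D i)) : Set (EE G (Fin (r (i + 1))))) := by
  ext F
  have h1 := ker_iff (D (i + 1)) F
  have h2 := coker_iff (D i) F
  have h3 := ContinuousLinearMap.orthogonal_range (opM (D i))
  rw [opM_adj] at h3
  unfold harm
  rw [h3]
  exact and_congr h1 h2

theorem betti_eq {r : ℕ → ℕ} (D : Matrices G r) (i : ℕ)
    (P : Submodule ℂ (EE G (Fin (r i)))) (hP : IsClosed (P : Set (EE G (Fin (r i)))))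
    (h : harmonic D i = (P : Set (EE G (Fin (r i))))) : betti D i = vd P := by
  classical
  rw [vd_eq_infDist P hP]
  unfold betti
  rw [h]
  refine Finset.sum_congr rfl fun j _ => ?_
  have e : (lp.single 2 ((1 : G), j) (1 : ℂ) : lp (fun _ : G × Fin (r i) => ℂ) 2)
      = (dl ((1 : G), j) : EE G (Fin (r i))) := by
    unfold dl
    congr 1
    exact Subsingleton.elim _ _
  rw [← e]

theorem betti_bt {r : ℕ → ℕ} (D : Matrices G r) (i : ℕ) : betti D i = N309.PD.bt D i := by
  cases i with
  | zero => exact betti_eq D 0 _ (ContinuousLinearMap.isClosed_ker _) (harmonic_zero D)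
  | succ i => exact betti_eq D (i + 1) _ (N309.LO.harm_closed _ _) (harmonic_succ D i)

end proofs

/-- The Euler characteristic of a complex of length `n`. -/
def eulerCharacteristic (n : ℕ) (r : ℕ → ℕ) : ℤ := ∑ i ∈ Finset.range (n + 1), (-1) ^ i * (r i : ℤ)

/-- **The Singer conjecture and the Euler characteristic.** Let `G` be generated by the elements
`s_1, …, s_d`, which are positive for a left-invariant total order of `G`. Let `T` be a set of indices
such that each `s_a` can be joined with some `s_t`, `t ∈ T`, inside the positive cone of the Cayley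
graph. Let `D` be the complex of a Poincaré duality group structure of dimension `n`, `2 ≤ n ≤ 4`, on
`G`.

1. If `|T| ≤ 1` or `d ≤ 2`, then all `L²`-Betti numbers vanish if and only if the Euler characteristic
is zero, and for `n = 4` the second `L²`-Betti number is the Euler characteristic.
2. For `n = 4` the second `L²`-Betti number lies between `χ` and `χ + 2 (|T| - 1)`. -/
theorem result (G : Type u) [Group G] [LinearOrder G] (hG : LeftInvariant G) (d : ℕ)
    (s : Fin d → G) (hpos : ∀ j, 1 < s j) (hs : Subgroup.closure (Set.range s) = ⊤)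
    (T : Finset (Fin d)) (hT : ∀ a, ∃ t ∈ T, JoinedInPositiveCone s (s a) (s t))
    (n : ℕ) (hn : 2 ≤ n) (hn4 : n ≤ 4) (r : ℕ → ℕ) (D : Matrices G r)
    (hD : IsDualityComplex n D) :
    ((T.card ≤ 1 ∨ d ≤ 2) →
      ((∀ i, betti D i = 0) ↔ eulerCharacteristic n r = 0) ∧
      (n = 4 → betti D 2 = eulerCharacteristic n r)) ∧
    (n = 4 → (eulerCharacteristic n r : ℝ) ≤ betti D 2 ∧
      betti D 2 ≤ eulerCharacteristic n r + 2 * ((T.card : ℝ) - 1)) := by
  classical
  obtain ⟨a, ha0, ha⟩ := hD.augmentation
  have hA : ∀ x, (∃ y, y ᵥ* D 0 = x) ↔ N309.PD.augF a x = 0 := by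
    intro x
    rw [ha, N309.PD.augF_apply]
    simp only [N309.PD.augm_eq]
    rfl
  have hφ : (N309.PD.augF a : (Fin (r 0) → MonoidAlgebra ℂ G) →ₗ[ℂ] ℂ) ≠ 0 :=
    N309.PD.augF_ne a ha0
  have hφ' := N309.PD.aug_of hφ _ hA
  obtain ⟨m, rfl⟩ : ∃ m, n = m + 2 := ⟨n - 2, by omega⟩
  obtain ⟨ψ, hψ0, hψ⟩ := hD.coaugmentation (m + 1) rfl
  have hψ' := N309.PD.dual_aug (D (m + 1)) ψ hψ
  have hψ0' := N309.PD.dualF_ne hψ0
  have hψ'' := N309.PD.aug_of hψ0' _ hψ'
  have hnf : ¬ Function.Injective (FreeGroup.lift s) :=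
    N309.PD.not_free r D hD.comp hD.exact (N309.PD.augF a) hφ hA m
      (hD.length (m + 3) (by omega)) ψ hψ0 hψ s hs
  have hd0 : 0 < d := by
    rcases Nat.eq_zero_or_pos d with h | h
    · subst h
      exact absurd (fun x y _ => Subsingleton.elim x y) hnf
    · exact h
  have hnt : Nontrivial G := ⟨⟨1, s ⟨0, hd0⟩, (hpos _).ne⟩⟩
  have hZ : N309.PD.NZ G := N309.PD.nz_left hG
  have k0 : ∀ F, N309.PD.opM (D 0) F = 0 → F = 0 :=
    N309.PD.ker_zero hZ (D 0) _ hφ' hA
  have k0' : ∀ F, N309.PD.opM (N309.PD.adjM (D (m + 1))) F = 0 → F = 0 :=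
    N309.PD.ker_zero hZ _ _ hψ'' hψ'
  have b0 : N309.PD.bt D 0 = 0 := N309.PD.bt_zero D k0
  have bn : N309.PD.bt D (m + 2) = 0 := N309.PD.bt_top D (m + 1) k0'
  have nn := N309.PD.bt_nonneg D
  have hcard1 : ((Fintype.card (Fin (r 0)) : ℕ) : ℝ) = (r 0 : ℝ) := by rw [Fintype.card_fin]
  have hcard2 : ((Fintype.card (Fin (r (m + 2))) : ℕ) : ℝ) = (r (m + 2) : ℝ) := by
    rw [Fintype.card_fin]
  have hcard3 : ((Fintype.card (Fin d) : ℕ) : ℝ) = (d : ℝ) := by rw [Fintype.card_fin]
  have hT' : ∀ a, ∃ t ∈ T, Relation.ReflTransGen (N309.PD.Adj s) (s a) (s t) := hT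
  have e1 : N309.PD.bt D 1 ≤ (T.card : ℝ) - 1 := by
    apply N309.PD.bt_one_le D hD.comp k0
    have h := N309.PD.ker_one_cone hG (D 0) (D 1) _ hφ' hA (hD.exact 0) s hpos hs T hT'
    rw [hcard1] at h
    linarith
  have e2 : N309.PD.bt D 1 ≤ (d : ℝ) - 2 := by
    apply N309.PD.bt_one_le D hD.comp k0
    have h := N309.PD.ker_one hZ (D 0) (D 1) _ hφ' hA (hD.exact 0) s hs hnf
    rw [hcard1, hcard3] at h
    linarith
  have hex := N309.PD.dual_exact (D (m + 1)) (D m) (hD.coexact m (by omega))
  have e3 : N309.PD.bt D (m + 1) ≤ (T.card : ℝ) - 1 := by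
    apply N309.PD.bt_cotop D hD.comp m k0'
    have h := N309.PD.ker_one_cone hG (N309.PD.adjM (D (m + 1))) (N309.PD.adjM (D m)) _ hψ'' hψ'
      hex s hpos hs T hT'
    rw [hcard2] at h
    linarith
  have e4 : N309.PD.bt D (m + 1) ≤ (d : ℝ) - 2 := by
    apply N309.PD.bt_cotop D hD.comp m k0'
    have h := N309.PD.ker_one hZ (N309.PD.adjM (D (m + 1))) (N309.PD.adjM (D m)) _ hψ'' hψ'
      hex s hs hnf
    rw [hcard2, hcard3] at h
    linarith
  have he := N309.PD.euler D hD.comp (m + 2) (hD.length (m + 3) (by omega))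
  have hχ : ((eulerCharacteristic (m + 2) r : ℤ) : ℝ)
      = ∑ i ∈ Finset.range (m + 2 + 1), (-1 : ℝ) ^ i * (r i : ℝ) := by
    unfold eulerCharacteristic
    push_cast
    rfl
  rw [← hχ] at he
  have hbig : ∀ i, m + 2 < i → N309.PD.bt D i = 0 := by
    intro i hi
    rw [← betti_bt]
    unfold betti
    apply Finset.sum_eq_zero
    intro j _
    have h1 := j.2
    have h2 := hD.length i hi
    omega
  have h4 : m + 2 = 4 → ((eulerCharacteristic (m + 2) r : ℤ) : ℝ)
      = N309.PD.bt D 2 - N309.PD.bt D 1 - N309.PD.bt D 3 := by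
    intro hm
    have hm2 : m = 2 := by omega
    subst hm2
    simp only [Finset.sum_range_succ, Finset.sum_range_zero] at he
    have bn' : N309.PD.bt D 4 = 0 := bn
    have e13 : N309.PD.bt D (2 + 1) = N309.PD.bt D 3 := rfl
    rw [b0, bn', e13] at he
    norm_num at he
    linarith
  refine ⟨?_, ?_⟩
  · intro hTd
    have f1 : N309.PD.bt D 1 = 0 := by
      apply le_antisymm _ (nn 1)
      rcases hTd with h | h
      · have : (T.card : ℝ) ≤ 1 := by exact_mod_cast h
        linarith
      · have : (d : ℝ) ≤ 2 := by exact_mod_cast h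
        linarith
    have f2 : N309.PD.bt D (m + 1) = 0 := by
      apply le_antisymm _ (nn (m + 1))
      rcases hTd with h | h
      · have : (T.card : ℝ) ≤ 1 := by exact_mod_cast h
        linarith
      · have : (d : ℝ) ≤ 2 := by exact_mod_cast h
        linarith
    have g4 : m + 2 = 4 → betti D 2 = eulerCharacteristic (m + 2) r := by
      intro hm
      have h := h4 hm
      have hm2 : m = 2 := by omega
      subst hm2
      have f3 : N309.PD.bt D 3 = 0 := f2
      rw [f1, f3] at h
      rw [betti_bt]
      linarith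
    refine ⟨⟨?_, ?_⟩, g4⟩
    · intro hall
      have h0 : ∑ i ∈ Finset.range (m + 2 + 1), (-1 : ℝ) ^ i * N309.PD.bt D i = 0 := by
        apply Finset.sum_eq_zero
        intro i _
        rw [← betti_bt, hall i, mul_zero]
      rw [h0] at he
      exact_mod_cast he.symm
    · intro hz i
      by_cases hi : m + 2 < i
      · rw [betti_bt, hbig i hi]
      · have h3 : i = 0 ∨ i = 1 ∨ i = m + 1 ∨ i = m + 2 ∨ (m = 2 ∧ i = 2) := by omega
        rcases h3 with rfl | rfl | rfl | rfl | ⟨hm, rfl⟩
        · rw [betti_bt, b0]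
        · rw [betti_bt, f1]
        · rw [betti_bt, f2]
        · rw [betti_bt, bn]
        · rw [g4 (by omega), hz]
          norm_num
  · intro hm
    have h := h4 hm
    have hm2 : m = 2 := by omega
    subst hm2
    have e5 : N309.PD.bt D 3 ≤ (T.card : ℝ) - 1 := e3
    have n1 := nn 1
    have n3 := nn 3
    rw [betti_bt]
    constructor
    · linarith
    · linarith

end Pool.Agent.Results.MP_394d50_gt.ConnectedConesIff
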