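import Pool.Agent.N13.PL.All

/-!
# Vanishing of all the `ℓ²`-Betti numbers and the Euler characteristics of the links

Let the flag complex `L` of the finite graph `G` be a homology sphere (and homology manifold) of dimension `n - 1`
(`HSph n G`). The Davis complex `Σ` of the right-angled Coxeter group `W G` is a contractible homology manifold of
dimension `n`, a manifold if `L` is a combinatorial sphere, and its quotients `M = Σ / H` by the torsion-free
subgroups `H` of finite index are closed aspherical `n`-manifolds with `χ(M) = [W : H] χ(W)` and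
`b_i^(2)(M) = [W : H] b_i^(2)(W)`.

We compare the problem for these manifolds with a problem on the set `U` of the vertices `v` whose links have
nonzero Euler characteristic `χ(W_(lk v)) = ∑ (-1/2)^|S|` (`chiL G {v}`): if `n` is odd then the vertices outside
of `U` do not matter.
-/

set_option autoImplicit false

namespace Pool.Agent.Results.MP_394d50_gt.EulerOfLinks

open Pool.Agent.W907.SG Pool.Agent.W907.SM Pool.Agent.TH652.Above Pool.Agent.Y132.SI Pool.Agent.N13.EU
open Pool.Agent.N13.PL

/-- **Result.** (1) For each `N` the following are equivalent: (a) for all flag homology spheres of dimension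
`n - 1 ≤ N - 1` all the `ℓ²`-Betti numbers of the right-angled Coxeter group `W` vanish if and only if `χ(W) = 0`;
(b) for all these spheres the `ℓ²`-Betti numbers of `W` vanish in the degrees `≠ n / 2`; (c) for all the flag homology
spheres of dimension `2 m`, `5 ≤ 2 m + 1 ≤ N`, the single `ℓ²`-Betti number `b_(m+1)^(2)(W_U)` vanishes, where
`U` is the set of the vertices `v` with `χ(W_(lk v)) ≠ 0` and `W_U` the right-angled Coxeter group of the
induced graph.
(2) For one flag homology sphere of dimension `n - 1`: suppose for all its faces `T` with `n - |T| = 2 m + 1 ≥ 5`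
and for the set `U` of the vertices `v` of the link of `T` with `χ(W_(lk (T ∪ v))) ≠ 0` that
`b_(m+1)^(2)(W_U) = 0`; for example that `U` has at most `3 m + 2` elements, or contains only faces with at
most `m` vertices, or spans a graph of the class `ER (2 m + 1)`, or can be numbered such that each element has at
most `3 m - 1` neighbours in `U` with smaller numbers. (There is no condition if `n ≤ 4`.) Then all `ℓ²`-Betti numbers of `W` vanish if and
only if `χ(W) = 0`, and this is the case if and only if the Betti numbers of the subgroups of finite index of `W` are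
small; for `n = 2 d` moreover `χ(W) = 0` if and only if `b_i^(2)(W_A) = 0` for all sets `A` of vertices and all
`i ≥ d`.
(3) Let `n = 2 m + 1`, let `b_i^(2)(W_A) = 0` for all nonempty faces `T`, all sets `A` of vertices of the link of `T`
and all `i > (n - |T|) / 2`, and let the sum of the `χ(W_(lk v))` over all vertices `v` be zero. Then all
`ℓ²`-Betti numbers of `W` vanish, and `b_i^(2)(W_A) = 0` for all sets `A` of vertices and all `i ≥ m`. -/
theorem result :
    (∀ N : ℕ,
      ((∀ n ≤ N, ∀ (V : Type) [Fintype V] [LinearOrder V] (G : SimpleGraph V), HSph n G →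
        ((∀ i : ℕ, L2Van G i) ↔ chiW G = 0)) ↔
      ∀ m : ℕ, 2 ≤ m → 2 * m + 1 ≤ N → ∀ (V : Type) [Fintype V] [LinearOrder V] (G : SimpleGraph V),
        HSph (2 * m + 1) G → ∀ U : Finset V, (∀ v, v ∈ U ↔ chiL G {v} ≠ 0) →
          L2Van (G.induce (U : Set V)) (m + 1)) ∧
      ((∀ n ≤ N, ∀ (V : Type) [Fintype V] [LinearOrder V] (G : SimpleGraph V), HSph n G →
        ((∀ i : ℕ, L2Van G i) ↔ chiW G = 0)) ↔
      ∀ n ≤ N, ∀ (V : Type) [Fintype V] [LinearOrder V] (G : SimpleGraph V), HSph n G →
        ∀ i : ℕ, 2 * i ≠ n → L2Van G i)) ∧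
    (∀ (n : ℕ) (V : Type) [Fintype V] [LinearOrder V] (G : SimpleGraph V), HSph n G →
      (∀ (T : Finset V) (m : ℕ), G.IsClique (T : Set V) → T.card + (2 * m + 1) = n → 2 ≤ m →
        ∀ U : Finset V, (∀ v, v ∈ U ↔ v ∈ lk G T ∧ chiL G (insert v T) ≠ 0) →
          U.card ≤ 3 * m + 2 ∨ (∀ S : Finset V, G.IsClique (S : Set V) → S ⊆ U → S.card ≤ m) ∨
          (1 ≤ m ∧ ∃ r : V → ℕ, Function.Injective r ∧
            ∀ v ∈ U, {u | u ∈ U ∧ G.Adj v u ∧ r u < r v}.ncard + 1 ≤ 3 * m) ∨
          ER (2 * m + 1) (G.induce (U : Set V)) ∨ L2Van (G.induce (U : Set V)) (m + 1)) →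
      ((∀ i : ℕ, L2Van G i) ↔ chiW G = 0) ∧
      (chiW G = 0 ↔ ∀ ε : ℝ, 0 < ε → ∃ E : Finset (W G), (1 : W G) ∉ E ∧
        ∀ H : Subgroup (W G), H.FiniteIndex → (∀ g ∈ E, ∀ x : W G, x * g * x⁻¹ ∉ H) →
          ∀ i : ℕ, (Module.finrank ℝ (HInv G H i) : ℝ) ≤ ε * H.index) ∧
      ∀ d : ℕ, n = 2 * d →
        (chiW G = 0 ↔ ∀ (A : Finset V) (i : ℕ), d ≤ i → L2Van (G.induce (A : Set V)) i)) ∧
    (∀ (m : ℕ) (V : Type) [Fintype V] [LinearOrder V] (G : SimpleGraph V), HSph (2 * m + 1) G →
      (∀ T : Finset V, G.IsClique (T : Set V) → T.Nonempty → ∀ A : Finset V, (A : Set V) ⊆ lk G T →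
        ∀ i : ℕ, 2 * m + 1 < 2 * i + T.card → L2Van (G.induce (A : Set V)) i) →
      ∑ v : V, chiL G {v} = 0 →
      (∀ i : ℕ, L2Van G i) ∧ ∀ (A : Finset V) (i : ℕ), m ≤ i → L2Van (G.induce (A : Set V)) i) := by
  refine ⟨fun N => ⟨(eulerIff_iff N).trans (singer_iff2 three N), eulerIff_iff N⟩, ?_,
    fun m V _ _ G hS hH h => odd_zero hS hH h⟩
  intro n V _ _ G hS hyp
  have hH : Hered n G := by
    exact (hered_iff2 three hS).2 fun T m hT hm hm' U hU => suff m U (hyp T m hT hm hm' U hU)
  have h : ∀ i : ℕ, 2 * i ≠ n → L2Van G i := fun i hi => singer_hered hS hH i hi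
  refine ⟨l2eul V G (n / 2) fun i hi => h i (by omega), chi_iff G n h, ?_⟩
  rintro d rfl
  exact even_zero hS hH

end Pool.Agent.Results.MP_394d50_gt.EulerOfLinks
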