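import Pool.Agent.N504.RS.Hom3

/-!
# All `ℓ²`-Betti numbers vanish if and only if the Euler characteristic does: subdivided homology spheres, relative
to a coloured full subcomplex

Let the flag complex of the graph `H` be a homology manifold with the homology of the sphere of dimension `n - 1`, both
over the reals and over the field with two elements, `n = 2 d` or `n = 2 d + 1`; for example any flag triangulation of
an integral homology sphere which is a manifold. Let `B` be a set of vertices such that the full subcomplex spanned by
`B` is properly coloured by `d + 1` colours (for example any complex of dimension at most `d` after one barycentric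
subdivision). We show that there is an iterated edge subdivision `S` of `H`, in which the full subcomplex spanned by
`B` is not changed, such that for the right-angled Coxeter group `W S` and its subgroups of finite index the
`ℓ²`-Betti numbers vanish if and only if the Euler characteristic is zero.

The quotients of the Davis complex of `W S` by the torsion-free subgroups `K` of finite index are closed aspherical
homology manifolds of dimension `n` (manifolds, if `H` is a combinatorial sphere), with
`χ = [W S : K] χ(W S)`, `χ(W S) = ∑_T (-1/2)^|T|` (`chiW S`).
-/

set_option autoImplicit false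

namespace Pool.Agent.Results.MP_394d50_gt.SubdividedHomologySpheres

open Module Pool.Agent.W907.SG Pool.Agent.W907.SM Pool.Agent.Y132.SI Pool.Agent.N496.LT
open Pool.Agent.TH652.Above (HSph)
open Pool.Agent.N504.RS.Two (HSph2)

/-- Let the flag complex of `H` be a homology manifold with the homology of the `(n-1)`-sphere over the reals and over
the field with two elements, `n = 2 d` or `n = 2 d + 1`, and let the full subcomplex spanned by the set `B` of
vertices be properly coloured by `d + 1` colours. Then there is an iterated edge subdivision `S` of `H`, again a
homology sphere in both senses, which induces on `B` the same graph as `H` such that the following are equivalent: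
(1) there are no nonzero `ℓ²` harmonic chains on the Davis complex of `W S`, in any degree, (2) the Euler
characteristic `χ(W S)` is zero, (3) for each `ε > 0` there is a finite set `E` of nontrivial elements of `W S` such
that for every subgroup `K` of finite index which contains no conjugate of an element of `E` all the real Betti
numbers of `K` are at most `ε [W S : K]`. -/
theorem result : ∀ (d n N : ℕ) (H : SimpleGraph (Fin N)), 1 ≤ d → (n = 2 * d ∨ n = 2 * d + 1) →
    HSph n H → HSph2 n H →
    ∀ (B : Set (Fin N)) (c : Fin N → Fin (d + 1)), (∀ u ∈ B, ∀ v ∈ B, H.Adj u v → c u ≠ c v) →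
    ∃ (m : ℕ) (h : N ≤ m) (S : SimpleGraph (Fin m)), Sub H S ∧ HSph n S ∧ HSph2 n S ∧
      (∀ u ∈ B, ∀ v ∈ B, S.Adj (Fin.castLE h u) (Fin.castLE h v) ↔ H.Adj u v) ∧
      ((∀ i : ℕ, L2Van S i) ↔ chiW S = 0) ∧
      (chiW S = 0 ↔ ∀ ε : ℝ, 0 < ε → ∃ E : Finset (W S), (1 : W S) ∉ E ∧
        ∀ K : Subgroup (W S), K.FiniteIndex → (∀ g ∈ E, ∀ x : W S, x * g * x⁻¹ ∉ K) →
          ∀ i : ℕ, (finrank ℝ (HInv S K i) : ℝ) ≤ ε * K.index) := by
  intro d n N H hd hn hS hS2 B c hc
  obtain ⟨m, h, S, h1, h2, h3, h4, h5, _⟩ := Pool.Agent.N504.RS.rel4 H hd hn hS hS2 B c hc
  exact ⟨m, h, S, h1, h2, h3, h4, l2eul _ S (n / 2) fun i hi => h5 i (by omega), chi_iff S n h5⟩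

end Pool.Agent.Results.MP_394d50_gt.SubdividedHomologySpheres
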